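import Mathlib

/-!
# A virtual endomorphism of the free group of rank two without invariant subgroups

`W` is the free product of three groups of order two with generators `0, 1, 2`; its subgroup of
the elements of even length is the free group on `a = 01`, `b = 21`. A two-state automaton (the dual
of the Bellaterra automaton) acts on the reduced words of `W`; the restriction of one of its states
to the even words with an even number of letters `2` is the virtual endomorphism.
-/

set_option autoImplicit false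

namespace Q27.VE

abbrev F : Type := FreeGroup (Fin 2)

/-- the free generators -/
abbrev a : F := FreeGroup.of 0
abbrev b : F := FreeGroup.of 1

/-- the wreath product of `F` and a group of order two -/
@[ext] structure Wr where
  p : F
  q : F
  c : Bool

namespace Wr

instance : Mul Wr := ⟨fun x y => if x.c then ⟨x.p * y.q, x.q * y.p, !y.c⟩ else
  ⟨x.p * y.p, x.q * y.q, y.c⟩⟩
instance : One Wr := ⟨⟨1, 1, false⟩⟩
instance : Inv Wr := ⟨fun x => if x.c then ⟨x.q⁻¹, x.p⁻¹, true⟩ else ⟨x.p⁻¹, x.q⁻¹, false⟩⟩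

theorem mul_f (p q : F) (y : Wr) : (⟨p, q, false⟩ : Wr) * y = ⟨p * y.p, q * y.q, y.c⟩ := rfl
theorem mul_t (p q : F) (y : Wr) : (⟨p, q, true⟩ : Wr) * y = ⟨p * y.q, q * y.p, !y.c⟩ := rfl
theorem inv_f (p q : F) : (⟨p, q, false⟩ : Wr)⁻¹ = ⟨p⁻¹, q⁻¹, false⟩ := rfl
theorem inv_t (p q : F) : (⟨p, q, true⟩ : Wr)⁻¹ = ⟨q⁻¹, p⁻¹, true⟩ := rfl
theorem one_def : (1 : Wr) = ⟨1, 1, false⟩ := rfl

instance : Group Wr := Group.ofLeftAxioms
  (by
    rintro ⟨p, q, _ | _⟩ ⟨p', q', _ | _⟩ ⟨p'', q'', _ | _⟩ <;>
      simp [mul_f, mul_t, mul_assoc])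
  (by
    rintro ⟨p, q, _ | _⟩ <;> simp [one_def, mul_f])
  (by
    rintro ⟨p, q, _ | _⟩ <;> simp [one_def, mul_f, mul_t, inv_f, inv_t])

end Wr

/-- the wreath recursion -/
def Φ : F →* Wr := FreeGroup.lift ![⟨a * b⁻¹, b * a⁻¹, false⟩, ⟨a⁻¹, b⁻¹, true⟩]

/-- the wreath recursion of the inverse automaton -/
def Φ' : F →* Wr := FreeGroup.lift ![⟨a * b⁻¹, b⁻¹, true⟩, ⟨b⁻¹, a * b⁻¹, true⟩]

theorem Φ_a : Φ a = ⟨a * b⁻¹, b * a⁻¹, false⟩ := by simp [Φ]
theorem Φ_b : Φ b = ⟨a⁻¹, b⁻¹, true⟩ := by simp [Φ]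
theorem Φ'_a : Φ' a = ⟨a * b⁻¹, b⁻¹, true⟩ := by simp [Φ']
theorem Φ'_b : Φ' b = ⟨b⁻¹, a * b⁻¹, true⟩ := by simp [Φ']

/-- parity -/
def χ : Wr →* Multiplicative (ZMod 2) where
  toFun x := if x.c then Multiplicative.ofAdd 1 else 1
  map_one' := by simp [Wr.one_def]
  map_mul' := by
    rintro ⟨p, q, _ | _⟩ ⟨p', q', _ | _⟩ <;> simp [Wr.mul_f, Wr.mul_t]; decide

theorem χ_one {x : Wr} : χ x = 1 ↔ x.c = false := by
  rcases x with ⟨p, q, _ | _⟩
  · simp [χ]
  · simp only [χ, MonoidHom.coe_mk, OneHom.coe_mk, if_true]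
    decide

/-- the subgroup of index two -/
def S : Subgroup F := (χ.comp Φ).ker

theorem mem_S {x : F} : x ∈ S ↔ (Φ x).c = false := by
  rw [S, MonoidHom.mem_ker, MonoidHom.comp_apply, χ_one]

theorem S_index : S.index = 2 := by
  have hs : Function.Surjective (χ.comp Φ) := by
    intro y
    have hy : y = 1 ∨ y = Multiplicative.ofAdd 1 := by
      revert y; decide
    rcases hy with rfl | rfl
    · exact ⟨1, map_one _⟩
    · refine ⟨b, ?_⟩
      rw [MonoidHom.comp_apply, Φ_b]
      rfl
  rw [S, Subgroup.index_ker, MonoidHom.range_eq_top.2 hs]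
  simp

/-- the virtual endomorphism -/
def f : S →* F where
  toFun x := (Φ x).p
  map_one' := by simp [Wr.one_def]
  map_mul' := by
    rintro ⟨x, hx⟩ ⟨y, hy⟩
    rw [mem_S] at hx hy
    simp only [MulMemClass.mk_mul_mk, map_mul]
    rcases h : Φ x with ⟨p, q, c⟩
    rw [h] at hx
    subst hx
    rfl

theorem rec_a : (Φ' (Φ a).p = ⟨a, a⁻¹, false⟩) ∧ Φ' (Φ a).q = ⟨a⁻¹, a, false⟩ := by
  rw [Φ_a]
  simp [Φ'_a, Φ'_b, Wr.mul_t, Wr.inv_t]

theorem rec_b : (Φ' (Φ b).p = ⟨b, (a * b⁻¹)⁻¹, true⟩) ∧ Φ' (Φ b).q = ⟨(a * b⁻¹)⁻¹, b, true⟩ := by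
  rw [Φ_b]
  simp [Φ'_a, Φ'_b, Wr.inv_t]

/-- `x` is recovered from its sections -/
def Good (x : F) : Prop := ((Φ' (Φ x).p).p = x ∧ (Φ' (Φ x).p).c = (Φ x).c) ∧
    ((Φ' (Φ x).q).q = x ∧ (Φ' (Φ x).q).c = (Φ x).c)

theorem good_mul {x y : F} (hx : Good x) (hy : Good y) : Good (x * y) := by
  unfold Good at *
  rw [map_mul]
  rcases h : Φ x with ⟨p, q, _ | _⟩ <;> rcases h' : Φ y with ⟨p', q', c'⟩ <;>
    rw [h] at hx <;> rw [h'] at hy <;>
    rcases h1 : Φ' p with ⟨u, v, d⟩ <;> rcases h2 : Φ' q with ⟨u', v', d'⟩ <;>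
    rcases h3 : Φ' p' with ⟨u₁, v₁, d₁⟩ <;> rcases h4 : Φ' q' with ⟨u₂, v₂, d₂⟩ <;>
    simp only [h1, h2, h3, h4] at hx hy <;> obtain ⟨⟨rfl, rfl⟩, rfl, rfl⟩ := hx <;>
    obtain ⟨⟨h5, rfl⟩, h6, rfl⟩ := hy <;>
    simp only [Wr.mul_f, Wr.mul_t, map_mul, h1, h2, h3, h4, h5, h6, and_self]

theorem good_inv {x : F} (hx : Good x) : Good x⁻¹ := by
  unfold Good at *
  rw [map_inv]
  rcases h : Φ x with ⟨p, q, _ | _⟩ <;>
    rw [h] at hx <;>
    rcases h1 : Φ' p with ⟨u, v, d⟩ <;> rcases h2 : Φ' q with ⟨u', v', d'⟩ <;>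
    simp only [h1, h2] at hx <;> obtain ⟨⟨rfl, rfl⟩, h5, rfl⟩ := hx <;>
    simp only [Wr.inv_f, Wr.inv_t, map_inv, h1, h2, h5, and_self]

theorem inv_rec (x : F) : Good x := by
  induction x using FreeGroup.induction_on with
  | C1 => simp [Good, Wr.one_def]
  | of i =>
    fin_cases i
    · show Good a
      rw [Good, rec_a.1, rec_a.2, Φ_a]
      simp
    · show Good b
      rw [Good, rec_b.1, rec_b.2, Φ_b]
      simp
  | inv_of i h => exact good_inv h
  | mul x y hx hy => exact good_mul hx hy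

theorem f_inj : Function.Injective f := by
  intro x y h
  have hx := (inv_rec x).1.1
  have hy := (inv_rec y).1.1
  have h' : (Φ (x : F)).p = (Φ (y : F)).p := h
  rw [h', hy] at hx
  exact Subtype.ext hx.symm

/-! ### words -/

/-- the letters as edges of the theta graph -/
def e : Fin 3 → F := ![a, 1, b]

/-- the local permutations -/
def pm (s : Bool) (l : Fin 3) : Fin 3 := if s then l + 2 else -l

/-- the transitions -/
def nx (s : Bool) (l : Fin 3) : Bool := if l = 2 then !s else s

/-- the action of a state on words -/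
def act : Bool → List (Fin 3) → List (Fin 3)
  | _, [] => []
  | s, l :: w => pm s l :: act (nx s l) w

/-- the state after reading a word -/
def st : Bool → List (Fin 3) → Bool
  | s, [] => s
  | s, l :: w => st (nx s l) w

/-- the element of `F`; the first letter has the sign `s` -/
def alt : Bool → List (Fin 3) → F
  | _, [] => 1
  | s, l :: w => (if s then e l else (e l)⁻¹) * alt (!s) w

theorem act_append (s : Bool) (w v : List (Fin 3)) : act s (w ++ v) = act s w ++ act (st s w) v := by
  induction w generalizing s with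
  | nil => rfl
  | cons l w ih => simp only [List.cons_append, act, st, ih]

theorem st_append (s : Bool) (w v : List (Fin 3)) : st s (w ++ v) = st (st s w) v := by
  induction w generalizing s with
  | nil => rfl
  | cons l w ih => simp only [List.cons_append, st, ih]

theorem act_length (s : Bool) (w : List (Fin 3)) : (act s w).length = w.length := by
  induction w generalizing s with
  | nil => rfl
  | cons l w ih => simp only [List.length_cons, act, ih]

/-- the sections of pairs of letters -/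
theorem Φ_pair (l m : Fin 3) : Φ (e l * (e m)⁻¹) =
    ⟨e (pm false l) * (e (pm (nx false l) m))⁻¹, e (pm true l) * (e (pm (nx true l) m))⁻¹,
      nx (nx false l) m⟩ := by
  fin_cases l <;> fin_cases m <;>
    simp [e, pm, nx, Φ_a, Φ_b, Wr.mul_f, Wr.mul_t, Wr.inv_f, Wr.inv_t, Wr.one_def]

theorem nx_not (s : Bool) (l : Fin 3) : nx (!s) l = !(nx s l) := by
  revert s l; decide

theorem Φ_alt : ∀ (u : List (Fin 3)), Even u.length →
    Φ (alt true u) = ⟨alt true (act false u), alt true (act true u), st false u⟩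
  | [], _ => by simp [alt, act, st, Wr.one_def]
  | [_], h => by simp at h
  | l :: m :: w, h => by
    have h' : Even w.length := by
      simp only [List.length_cons] at h
      rcases h with ⟨k, hk⟩
      exact ⟨k - 1, by omega⟩
    have ih := Φ_alt w h'
    have h1 : alt true (l :: m :: w) = e l * (e m)⁻¹ * alt true w := by
      simp [alt, mul_assoc]
    rw [h1, map_mul, Φ_pair, ih]
    have h2 : nx (nx true l) m = !(nx (nx false l) m) := by
      have := nx_not false l
      have h3 := nx_not (nx false l) m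
      rw [← this] at h3
      exact h3
    have h4 : ∀ w s, st (!s) w = !(st s w) := by
      intro w
      induction w with
      | nil => intro s; rfl
      | cons l w ih => intro s; simp only [st, nx_not, ih]
    cases h5 : nx (nx false l) m
    · rw [h5] at h2
      rw [Wr.mul_f]
      simp [alt, act, st, h5, h2, mul_assoc]
    · rw [h5] at h2
      rw [Wr.mul_t]
      have h6 := h4 w false
      simp only [Bool.not_false] at h6
      simp [alt, act, st, h5, h2, mul_assoc, h6]

/-- consecutive letters are different -/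
def Ch : Fin 3 → List (Fin 3) → Prop
  | _, [] => True
  | t, l :: w => l ≠ t ∧ Ch l w

/-- reduced words -/
def Rd : List (Fin 3) → Prop
  | [] => True
  | l :: w => Ch l w

theorem Ch.rd {t : Fin 3} : ∀ {w : List (Fin 3)}, Ch t w → Rd w
  | [], _ => trivial
  | _ :: _, h => h.2

theorem letter (l : Fin 3) (s : Bool) (u : List (Fin 3)) (hu : Rd u) : ∃ u', Rd u' ∧
    Odd (u'.length + u.length) ∧ alt s u' = (if s then e l else (e l)⁻¹) * alt (!s) u := by
  cases u with
  | nil => exact ⟨[l], trivial, by simp, by simp [alt]⟩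
  | cons m v =>
    by_cases h : m = l
    · subst h
      refine ⟨v, Ch.rd hu, ?_, ?_⟩
      · simp only [List.length_cons]
        exact ⟨v.length, by ring⟩
      · cases s <;> simp [alt]
    · refine ⟨l :: m :: v, ⟨h, hu⟩, ?_, rfl⟩
      simp only [List.length_cons]
      exact ⟨v.length + 1, by ring⟩

theorem surj_step (l m : Fin 3) {x : F} (h : ∃ u, Rd u ∧ Even u.length ∧ alt true u = x) :
    ∃ u, Rd u ∧ Even u.length ∧ alt true u = e l * (e m)⁻¹ * x := by
  obtain ⟨u, h1, h2, rfl⟩ := h
  obtain ⟨v, h3, h4, h5⟩ := letter m false u h1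
  obtain ⟨w, h6, h7, h8⟩ := letter l true v h3
  refine ⟨w, h6, ?_, ?_⟩
  · rcases h2 with ⟨i, hi⟩
    rcases h4 with ⟨j, hj⟩
    rcases h7 with ⟨k, hk⟩
    rw [Nat.even_iff]
    omega
  · rw [h8]
    simp only [Bool.not_true, if_true]
    rw [h5]
    simp [mul_assoc]

theorem surj (x : F) : ∃ u, Rd u ∧ Even u.length ∧ alt true u = x := by
  obtain ⟨L, rfl⟩ : ∃ L, FreeGroup.mk L = x := Quot.exists_rep x
  induction L with
  | nil => exact ⟨[], trivial, by simp, rfl⟩
  | cons y L ih =>
    obtain ⟨i, c⟩ := y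
    have h : FreeGroup.mk ((i, c) :: L) = FreeGroup.mk [(i, c)] * FreeGroup.mk L := by
      rw [FreeGroup.mul_mk]; rfl
    have h' : ∃ l m, FreeGroup.mk [(i, c)] = e l * (e m)⁻¹ := by
      fin_cases i <;> cases c
      · exact ⟨1, 0, by simp [e, a, FreeGroup.of, FreeGroup.inv_mk, FreeGroup.invRev]⟩
      · exact ⟨0, 1, by simp [e, a, FreeGroup.of]⟩
      · exact ⟨1, 2, by simp [e, b, FreeGroup.of, FreeGroup.inv_mk, FreeGroup.invRev]⟩
      · exact ⟨2, 1, by simp [e, b, FreeGroup.of]⟩
    obtain ⟨l, m, h'⟩ := h'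
    rw [h, h']
    exact surj_step l m ih

/-! ### the odometer -/

/-- the last letter -/
def top : Fin 3 → List (Fin 3) → Fin 3
  | t, [] => t
  | _, l :: w => top l w

theorem top_append (t : Fin 3) (w : List (Fin 3)) (l : Fin 3) : top t (w ++ [l]) = l := by
  induction w generalizing t with
  | nil => rfl
  | cons m w ih => exact ih m

theorem Ch_append (t : Fin 3) (w : List (Fin 3)) (l : Fin 3) :
    Ch t (w ++ [l]) ↔ Ch t w ∧ l ≠ top t w := by
  induction w generalizing t with
  | nil => simp [Ch, top]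
  | cons m w ih => simp only [List.cons_append, Ch, top, ih, and_assoc]

/-- the odometer -/
def P (w : List (Fin 3)) : List (Fin 3) := act false w

/-- the statistics -/
def ep (w : List (Fin 3)) : ZMod 2 := if st false w = false then 1 else 0
def gg (w : List (Fin 3)) : ZMod 2 := if top 0 w = 2 then 0 else 1

theorem pm_top (w : List (Fin 3)) : top 0 (P w) = pm (st false w) (top 0 w) := by
  induction w using List.reverseRecOn with
  | nil => rfl
  | append_singleton w l _ =>
    rw [P, act_append, top_append, st_append, act, act, top_append]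
    show pm (st false w) l = pm (nx (st false w) l) l
    generalize st false w = s
    revert s l
    decide

/-- the letter after `k` steps -/
def lk (w : List (Fin 3)) : ℕ → Fin 3 → Fin 3
  | 0, l => l
  | k + 1, l => pm (st false (P^[k] w)) (lk w k l)

theorem P_append (w : List (Fin 3)) (l : Fin 3) (k : ℕ) :
    P^[k] (w ++ [l]) = P^[k] w ++ [lk w k l] := by
  induction k with
  | zero => rfl
  | succ k ih =>
    rw [Function.iterate_succ_apply', ih, Function.iterate_succ_apply', P, act_append]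
    rfl

theorem lk_top (w : List (Fin 3)) (k : ℕ) : lk w k (top 0 w) = top 0 (P^[k] w) := by
  induction k with
  | zero => rfl
  | succ k ih => rw [lk, ih, Function.iterate_succ_apply', pm_top]

theorem pm_inj (s : Bool) : Function.Injective (pm s) := by
  revert s; decide

theorem lk_inj (w : List (Fin 3)) (k : ℕ) : Function.Injective (lk w k) := by
  induction k with
  | zero => exact fun _ _ h => h
  | succ k ih => exact fun _ _ h => ih (pm_inj _ h)

theorem lk_sub (w : List (Fin 3)) (k : ℕ) (l m : Fin 3) : lk w k l - lk w k m =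
    if ∑ j ∈ Finset.range k, ep (P^[j] w) = 1 then -(l - m) else l - m := by
  induction k with
  | zero => simp [lk]
  | succ k ih =>
    rw [Finset.sum_range_succ, lk, lk]
    have h1 : pm (st false (P^[k] w)) (lk w k l) - pm (st false (P^[k] w)) (lk w k m) =
        if ep (P^[k] w) = 1 then -(lk w k l - lk w k m) else lk w k l - lk w k m := by
      unfold ep
      generalize st false (P^[k] w) = s
      generalize lk w k l = x
      generalize lk w k m = y
      revert s x y
      decide
    rw [h1, ih]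
    have h2 : ∀ (x y : ZMod 2) (z : Fin 3), (if x = 1 then -(if y = 1 then -z else z) else
        if y = 1 then -z else z) = if y + x = 1 then -z else z := by decide
    exact h2 _ _ _

theorem pair_ep (w : List (Fin 3)) (m m' : Fin 3) (h : m ≠ m') (h1 : m ≠ top 0 w)
    (h2 : m' ≠ top 0 w) : ep (w ++ [m]) + ep (w ++ [m']) = gg w := by
  unfold ep gg
  rw [st_append, st_append]
  simp only [st]
  revert h h1 h2
  generalize top 0 w = t
  generalize st false w = s
  revert s t m m'
  decide

theorem pair_gg (w : List (Fin 3)) (m m' : Fin 3) (h : m ≠ m') (h1 : m ≠ top 0 w)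
    (h2 : m' ≠ top 0 w) : gg (w ++ [m]) + gg (w ++ [m']) = gg w := by
  unfold gg
  rw [top_append, top_append]
  revert h h1 h2
  generalize top 0 w = t
  revert t m m'
  decide

theorem key (w : List (Fin 3)) (h1 : P^[2 ^ w.length] w = w)
    (h2 : ∑ k ∈ Finset.range (2 ^ w.length), ep (P^[k] w) = 1) (l' : Fin 3) :
    P^[2 ^ w.length] (w ++ [l']) = w ++ [-(top 0 w + l')] := by
  rw [P_append, h1]
  have h4 := lk_top w (2 ^ w.length)
  have h5 := lk_sub w (2 ^ w.length) l' (top 0 w)
  rw [h2, h4, h1, if_pos rfl] at h5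
  have d0 : ∀ x t y : Fin 3, x - t = -(y - t) → x = -(t + y) := by decide
  rw [d0 _ _ _ h5]

theorem odometer (w : List (Fin 3)) : Ch 0 w → P^[2 ^ w.length] w = w ∧
    ∑ k ∈ Finset.range (2 ^ w.length), ep (P^[k] w) = 1 ∧
    ∑ k ∈ Finset.range (2 ^ w.length), gg (P^[k] w) = 1 := by
  induction w using List.reverseRecOn with
  | nil =>
    intro _
    simp only [List.length_nil, pow_zero, Finset.range_one, Finset.sum_singleton,
      Function.iterate_zero, id_eq, Function.iterate_one]
    exact ⟨rfl, rfl, rfl⟩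
  | append_singleton w l ih =>
    intro h
    rw [Ch_append] at h
    obtain ⟨h1, h2, h3⟩ := ih h.1
    have hl := h.2
    have key := key w h1 h2
    have d1 : ∀ l t : Fin 3, l ≠ t → l ≠ -(t + l) := by decide
    have d2 : ∀ l t : Fin 3, l ≠ t → -(t + l) ≠ t := by decide
    have d3 : ∀ l t : Fin 3, -(t + -(t + l)) = l := by decide
    have hne : l ≠ -(top 0 w + l) := d1 _ _ hl
    have hne' : -(top 0 w + l) ≠ top 0 w := d2 _ _ hl
    have hlen : 2 ^ (w ++ [l]).length = 2 ^ w.length + 2 ^ w.length := by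
      rw [List.length_append, List.length_singleton, pow_succ, mul_two]
    have hsum : ∀ F : List (Fin 3) → ZMod 2, (∀ w m m', m ≠ m' → m ≠ top 0 w → m' ≠ top 0 w →
        F (w ++ [m]) + F (w ++ [m']) = gg w) →
        ∑ k ∈ Finset.range (2 ^ (w ++ [l]).length), F (P^[k] (w ++ [l])) = 1 := by
      intro F hF
      rw [hlen, Finset.sum_range_add, ← Finset.sum_add_distrib, ← h3]
      refine Finset.sum_congr rfl fun k _ => ?_
      rw [Nat.add_comm, Function.iterate_add_apply, key, P_append, P_append]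
      refine hF _ _ _ (fun h6 => hne (lk_inj w k h6)) (fun h6 => hl ?_) (fun h6 => hne' ?_)
      · rw [← lk_top] at h6
        exact lk_inj w k h6
      · rw [← lk_top] at h6
        exact lk_inj w k h6
    refine ⟨?_, hsum ep pair_ep, hsum gg pair_gg⟩
    rw [hlen, Function.iterate_add_apply, key, key, d3]

theorem P_zero (v : List (Fin 3)) (k : ℕ) : P^[k] (0 :: v) = 0 :: P^[k] v := by
  induction k with
  | zero => rfl
  | succ k ih =>
    rw [Function.iterate_succ_apply', ih, Function.iterate_succ_apply']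
    rfl

theorem swap (u : List (Fin 3)) (hu : Rd u) (hne : u ≠ []) (he : Even u.length) :
    ∃ k w l l', u = w ++ [l] ∧ l ≠ l' ∧ Odd w.length ∧ P^[k] u = w ++ [l'] := by
  have d1 : ∀ l t : Fin 3, l ≠ t → l ≠ -(t + l) := by decide
  have base : ∀ u : List (Fin 3), Ch 0 u → u ≠ [] → ∃ k w l l', u = w ++ [l] ∧ l ≠ l' ∧
      P^[k] u = w ++ [l'] := by
    intro u hu hne
    rcases List.eq_nil_or_concat' u with rfl | ⟨w, l, rfl⟩
    · exact absurd rfl hne
    · rw [Ch_append] at hu
      obtain ⟨h1, h2, -⟩ := odometer w hu.1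
      exact ⟨_, w, l, _, rfl, d1 _ _ hu.2, key w h1 h2 l⟩
  have main : ∃ k w l l', u = w ++ [l] ∧ l ≠ l' ∧ P^[k] u = w ++ [l'] := by
    cases u with
    | nil => exact absurd rfl hne
    | cons m v =>
      by_cases h : m = 0
      · subst h
        have hv : v ≠ [] := by
          rintro rfl
          simp at he
        obtain ⟨k, w, l, l', rfl, h1, h2⟩ := base v hu hv
        refine ⟨k, 0 :: w, l, l', rfl, h1, ?_⟩
        rw [P_zero, h2]
        rfl
      · exact base (m :: v) ⟨h, hu⟩ hne
  obtain ⟨k, w, l, l', rfl, h1, h2⟩ := main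
  refine ⟨k, w, l, l', rfl, h1, ?_, h2⟩
  rw [List.length_append, List.length_singleton] at he
  rcases he with ⟨i, hi⟩
  rw [Nat.odd_iff]
  omega

theorem alt_append : ∀ (w : List (Fin 3)) (s : Bool) (l : Fin 3),
    alt s (w ++ [l]) = alt s w * (if (Even w.length ↔ s = true) then e l else (e l)⁻¹)
  | [], s, l => by cases s <;> simp [alt]
  | m :: w, s, l => by
    rw [List.cons_append, alt, alt, alt_append w, mul_assoc, List.length_cons]
    congr 2
    have : (Even w.length ↔ (!s) = true) ↔ (Even (w.length + 1) ↔ s = true) := by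
      rw [Nat.even_add_one]
      cases s <;> simp
    simp only [this]

/-- there is no invariant subgroup -/
theorem no_inv (H : Subgroup F) (hS : H ≤ S) (hH : ∀ x ∈ H, (Φ x).p ∈ H) : H = ⊥ := by
  by_contra hne
  obtain ⟨x, hx, hx1⟩ : ∃ x, x ∈ H ∧ x ≠ 1 := by
    by_contra h
    refine hne ((Subgroup.eq_bot_iff_forall H).2 fun x hx => ?_)
    by_contra h'
    exact h ⟨x, hx, h'⟩
  obtain ⟨u, hu, he, rfl⟩ := surj x
  have hu0 : u ≠ [] := by
    rintro rfl
    exact hx1 rfl
  have hk : ∀ k, (P^[k] u).length = u.length ∧ alt true (P^[k] u) ∈ H := by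
    intro k
    induction k with
    | zero => exact ⟨rfl, hx⟩
    | succ k ih =>
      rw [Function.iterate_succ_apply']
      refine ⟨by rw [P, act_length, ih.1], ?_⟩
      have h := hH _ ih.2
      rw [Φ_alt _ (by rw [ih.1]; exact he)] at h
      exact h
  obtain ⟨k, w, l, l', rfl, hl, ho, h2⟩ := swap u hu hu0 he
  have h3 := (hk k).2
  rw [h2, alt_append] at h3
  rw [alt_append] at hx
  have h4 : ¬ Even w.length := Nat.not_even_iff_odd.2 ho
  simp only [h4, false_iff, not_true_eq_false, if_false] at h3 hx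
  have h5 : e l * (e l')⁻¹ ∈ H := by
    have := H.mul_mem (H.inv_mem hx) h3
    simpa [mul_assoc] using this
  have h6 := hH _ h5
  have h7 := mem_S.1 (hS h5)
  have h8 := mem_S.1 (hS h6)
  rw [Φ_pair] at h7 h8
  simp only at h7 h8
  rw [Φ_pair] at h8
  simp only at h8
  clear h2 h3 h4 h5 h6 hk hu0 hx1 hx hu he
  revert l l'
  decide

theorem main : ¬ (∀ (S R : Subgroup (FreeGroup (Fin 2))), S.index = 2 →
      ∀ f : S ≃* R,
        ∃ H : Subgroup (FreeGroup (Fin 2)),
          H ≤ S ∧ H ≠ ⊥ ∧
            ∀ x : S, (x : FreeGroup (Fin 2)) ∈ H → ((f x : R) : FreeGroup (Fin 2)) ∈ H) := by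
  intro h
  obtain ⟨H, hS, hne, hH⟩ := h S f.range S_index (MonoidHom.ofInjective f_inj)
  exact hne (no_inv H hS fun x hx => hH ⟨x, hS hx⟩ hx)

end Q27.VE
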